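import Pool.Agent.W242.GG.TowFam2
import Pool.Agent.W242.TDF.Count

set_option autoImplicit false

/-!
# Families through `√2 ^ (√2 ^ √2)`

For `a = √2` and `t = √2 ^ √2` the number `√2 ^ (√2 ^ √2)` is the member `P = X` of the family
`a ^ P(t)`, the member `s = 0` of the family `a ^ (t / (1 - s t))` and the member `n = 1` of the
family `a ^ (t ^ n)`.
-/

namespace Pool.Agent.Results.MP_93d8d2_nt.ExceptionalPolynomials

open Polynomial Module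
open Pool.Agent.W242.GG Pool.Agent.W242.TDF Pool.Agent.H301R2.SSE
open Pool.Agent.H462R2.PiE (alg_ofReal)
open Pool.Agent.H137R5.Tow (trC)

/-- `t` is *free*: its logarithm is not of the form `γ + β₁ l₁ + ... + βₘ lₘ` with `γ`, the `βᵢ`
and the exponentials of the `lᵢ` algebraic (complex) numbers, i.e. `t` is not of the form
`e ^ γ * α₁ ^ β₁ * ... * αₘ ^ βₘ`. -/
def Free (t : ℝ) : Prop :=
  ∀ (m : ℕ) (γ : ℂ) (β l : Fin m → ℂ), IsAlgebraic ℚ γ → (∀ i, IsAlgebraic ℚ (β i)) →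
    (∀ i, IsAlgebraic ℚ (Complex.exp (l i))) → ((Real.log t : ℝ) : ℂ) ≠ γ + ∑ i, β i * l i

theorem rpow_poly {a : ℝ} (ha : 0 < a) (t : ℝ) (P : ℚ[X]) :
    ((a ^ (aeval t P) : ℝ) : ℂ) = Complex.exp (((Real.log a : ℝ) : ℂ) * aeval (t : ℂ) P) := by
  rw [Real.rpow_def_of_pos ha, Complex.ofReal_exp, Complex.ofReal_mul]
  congr 2
  exact (Polynomial.aeval_algebraMap_apply ℂ t P).symm

open Classical in
theorem result :
    (∀ a t : ℝ, 0 < a → a ≠ 1 → IsAlgebraic ℚ a → Transcendental ℚ t →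
      (∀ n : ℕ, (finrank ℚ (Submodule.span ℚ {P : ℚ[X] | P.natDegree ≤ n ∧
        ¬ AlgebraicIndependent ℚ ![(t : ℂ), ((a ^ (aeval t P) : ℝ) : ℂ)]}) + 1) ^ 2 ≤
          8 * n + 4) ∧
      (∀ N : ℕ, (((Finset.Icc 1 N).filter (fun n : ℕ => ¬ AlgebraicIndependent ℚ
        ![(t : ℂ), ((a ^ (t ^ n) : ℝ) : ℂ)])).card + 2) ^ 2 ≤ 8 * N + 4) ∧
      {s : ℚ | ¬ AlgebraicIndependent ℚ
        ![(t : ℂ), ((a ^ (t / (1 - s * t)) : ℝ) : ℂ)]}.encard ≤ 4 ∧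
      {s : ℝ | IsAlgebraic ℚ s ∧ ¬ Free (a ^ (t / (1 - s * t)))}.encard ≤ 2 ∧
      (∀ N : ℕ, (((Finset.Icc 1 N).filter (fun n : ℕ => ¬ Free (a ^ (t ^ n)))).card : ℝ) ≤
        2 * Real.sqrt N + 1) ∧
      (∀ n : ℕ, finrank (algebraicClosure ℚ ℂ) (Submodule.span (algebraicClosure ℚ ℂ)
        {P : (algebraicClosure ℚ ℂ)[X] | P.natDegree ≤ n ∧
          IsAlgebraic ℚ ((a : ℂ) ^ (aeval (t : ℂ) P))}) ^ 2 ≤ 4 * n + 1)) ∧
    Transcendental ℚ (Real.sqrt 2 ^ Real.sqrt 2) := by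
  refine ⟨?_, z_tr⟩
  intro a t ha ha1 haa ht
  have htC := trC ht
  have hl := log_ne' ha ha1
  refine ⟨?_, ?_, fam_dep ha ha1 haa ht, fam_free ha ha1 haa ht, fam_pow_free ha ha1 ht, ?_⟩
  · intro n
    refine span_sq2 htC hl n _ ?_
    rintro P ⟨h2, h3⟩
    rw [rpow_poly ha] at h3
    exact ⟨h2, dep_alg htC h3⟩
  · intro N
    have h := count2 htC hl (by rw [exp_log_c ha]; exact (alg_ofReal haa).tower_top _) N
    simpa only [rpow_pow_exp ha] using h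
  · intro n
    rw [sq]
    refine poly_alg_sq htC hl n _ ?_
    rintro P ⟨h2, h3⟩
    rw [Complex.cpow_def_of_ne_zero (by exact_mod_cast ha.ne'), ← Complex.ofReal_log ha.le] at h3
    exact ⟨h2, h3⟩

end Pool.Agent.Results.MP_93d8d2_nt.ExceptionalPolynomials
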