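import Pool.Agent.W242.GG.Tower

set_option autoImplicit false

/-!
# Towers `a ^ (n ^ c)` over fields of transcendence degree one

For `a = √2`, `c = √2 / 2`, `n = 2` the number `a ^ (n ^ c) = e ^ (log a * n ^ c)` is
`√2 ^ (√2 ^ √2)`; with `t = √2 ^ √2`, `L = log √2` and `k = 1` it is `e ^ (L t ^ k)`.

The proof: Gelfond's method (modules of helper252, helper669, helper85) gives the theorem on
exponentials `e ^ (x_i y_j)` with `d l > 2 (d + l)`; it is applied to multiplicative cubes in dense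
sets of integers (helper297).
-/

namespace Pool.Agent.Results.MP_93d8d2_nt.OverFieldsOfDegreeOne

open Finset

open Classical in
theorem result :
    (∀ ε : ℝ, 0 < ε → ∃ N₀ : ℕ, ∀ N ≥ N₀, ∀ c : ℝ, Irrational c → ∀ L : ℂ, L ≠ 0 →
      (∀ θ : ℂ, (((Icc 1 N).filter (fun n : ℕ => IsAlgebraic (IntermediateField.adjoin ℚ {θ})
        (Complex.exp (L * (((n : ℝ) ^ c : ℝ) : ℂ))))).card : ℝ) ≤ ε * N) ∧
      (∀ c' : ℝ, Irrational c' → ∀ L' : ℂ, L' ≠ 0 →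
        (((Icc 1 N ×ˢ Icc 1 N).filter (fun p : ℕ × ℕ => ¬ AlgebraicIndependent ℚ
          ![Complex.exp (L * (((p.1 : ℝ) ^ c : ℝ) : ℂ)),
            Complex.exp (L' * (((p.2 : ℝ) ^ c' : ℝ) : ℂ))])).card : ℝ) ≤ ε * N ^ 2)) ∧
    (∀ t L θ : ℂ, Transcendental ℚ t → L ≠ 0 → ∀ K : ℕ,
      (((Icc 1 K).filter (fun k : ℕ => IsAlgebraic (IntermediateField.adjoin ℚ {θ})
        (Complex.exp (L * t ^ k)))).card : ℝ) ≤ 2 * (K : ℝ) ^ (3 / 4 : ℝ) + 3) := by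
  refine ⟨?_, fun t L θ ht hL K => Pool.Agent.W242.GG.pow_all θ ht hL K⟩
  intro ε hε
  obtain ⟨N1, h1⟩ := Pool.Agent.W242.GG.dens ε hε
  obtain ⟨N2, h2⟩ := Pool.Agent.W242.GG.pairs ε hε
  refine ⟨max N1 N2, fun N hN c hc L hL => ⟨fun θ => ?_, fun c' hc' L' hL' => ?_⟩⟩
  · exact h1 N ((le_max_left _ _).trans hN) c hc L θ hL
  · exact h2 N ((le_max_right _ _).trans hN) c c' hc hc' L L' hL hL'

end Pool.Agent.Results.MP_93d8d2_nt.OverFieldsOfDegreeOne
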